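import Mathlib
import Pool.Agent.H25.AlmostReg

set_option autoImplicit false

universe u

namespace Pool.Agent.Results.MP_e5b57d_lc.Uncountable

open Cardinal Set

/-- `d` is the least coordinate at which `x` and `y` differ. -/
def IsDelta {W : Type u} [LinearOrder W] (x y : W → Bool) (d : W) : Prop :=
  IsLeast {i | x i ≠ y i} d

/-- Almost `Δ`-regressive colourings of pairs from `2^W`. -/
def AlmostRegressive {W : Type u} [LinearOrder W] (c : Sym2 (W → Bool) → W) : Prop :=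
  ∃ μ : W, ∀ x y d, IsDelta x y d → c s(x, y) < max d μ

theorem result (κ : Cardinal.{u}) (_hreg : κ.IsRegular) (hu : ℵ₀ < κ)
    (hpow : ∀ μ, μ < κ → (2 : Cardinal.{u}) ^ μ < 2 ^ κ)
    (c : Sym2 (κ.ord.ToType → Bool) → κ.ord.ToType) (hc : AlmostRegressive c) :
    ∃ Y : Set (κ.ord.ToType → Bool), Y.Infinite ∧ ¬ Y.Countable ∧
      ∃ i, ∀ x ∈ Y, ∀ y ∈ Y, x ≠ y → c s(x, y) = i := by
  obtain ⟨μ, hμ⟩ := hc
  obtain ⟨Y, i, h1, h2⟩ := Pool.Agent.H25.AlmostReg.main κ hu hpow c μ hμ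
  have h3 : ¬ Y.Countable := fun h => absurd h1 (not_lt.2 (le_aleph0_iff_set_countable.2 h))
  exact ⟨Y, fun h => h3 h.countable, h3, i, h2⟩

end Pool.Agent.Results.MP_e5b57d_lc.Uncountable
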